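import Pool.Agent.H70.Chain2

namespace Pool.Agent.Results.MP_3e56e8_al.Congruence

universe u

theorem result (G : Type u) [Group G] [Finite G] (p t n : ℕ) (hp : p.Prime)
    (hG : Nat.card G = p ^ t * n) (hn : ¬ p ∣ n) (s : ℕ) (hs : s ≤ t) (J : Finset ℕ)
    (_hne : J.Nonempty) (hJ : ∀ c ∈ J, c ≤ s) :
    Pool.Agent.H70.Chain.S G p s J ≡ 1 [ZMOD (p : ℤ) ^ J.card] := by
  refine Pool.Agent.H70.Chain.final p s hp (hs.trans ?_) J hJ
  exact (hp.pow_dvd_iff_le_factorization Nat.card_pos.ne').1 ⟨n, hG⟩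

end Pool.Agent.Results.MP_3e56e8_al.Congruence
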